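import Pool.Agent.Y714.KE.Cusp
import Pool.Agent.Y714.KE.Bas

set_option autoImplicit false
set_option linter.unusedSectionVars false
set_option linter.unusedVariables false

/-! Null boundaries of the cusp regions (helper903). -/

namespace Pool.Agent.Y903.KE

open Pool.Agent.Y714.KE
open Pool.Agent.Y714.KF (FI sp ct nm pm ext br gl ubas qf bk el sg bf)
open NumberField FractionalIdeal Module Finset ComplexConjugate MeasureTheory Filter Topology
open scoped nonZeroDivisors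

section levels

variable {ι : Type} [Fintype ι]

/-- a set moved to infinitely many levels of a function is a null set -/
theorem null_of_levels (A : Set (ι → ℝ)) (g : (ι → ℝ) → ℝ) (hg : Measurable g)
    (φ : ℝ → ℝ) (hφ : Set.InjOn φ (Set.Ioi 0)) (L : ℝ → (ι → ℝ) → (ι → ℝ))
    (hL : ∀ t : ℝ, 0 < t → ∀ S : Set (ι → ℝ), volume S = 0 → volume (L t ⁻¹' S) = 0)
    (h : ∀ t : ℝ, 0 < t → ∀ u ∈ A, g (L t u) = φ t) : volume A = 0 := by
  by_contra hne
  have hcount := Measure.countable_meas_level_set_pos (μ := (volume : Measure (ι → ℝ))) hg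
  have hsub : φ '' (Set.Ioi 0) ⊆ {t : ℝ | 0 < volume {a | g a = t}} := by
    rintro _ ⟨t, ht, rfl⟩
    rw [Set.mem_ofPred_eq, pos_iff_ne_zero]
    intro h0
    have h1 := hL t ht _ h0
    exact hne (measure_mono_null (fun u hu => h t ht u hu) h1)
  have h2 : (Set.Ioi (0 : ℝ)).Countable :=
    Set.countable_of_injective_of_countable_image hφ (hcount.mono hsub)
  have h3 := h2.measure_zero (volume : Measure ℝ)
  rw [Real.volume_Ioi] at h3
  exact ENNReal.top_ne_zero h3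

theorem trans_null (w : ι → ℝ) (S : Set (ι → ℝ)) (hS : volume S = 0) :
    volume ((fun u => u + w) ⁻¹' S) = 0 := by
  rw [measure_preimage_add_right]
  exact hS

end levels

variable {s : Type} [Fintype s] [DecidableEq s] {K : s → Type} [∀ i, Field (K i)]
  [∀ i, NumberField (K i)]

/-! ### the action of triangular matrices -/

/-- the matrix `(x, 0; c, 1)` acting on the coordinates -/
def TT (x c : ℝ) (w : Ix K ⊕ Ix K → ℝ) : Ix K ⊕ Ix K → ℝ :=
  Sum.elim (fun l => x * w (Sum.inl l)) (fun l => c * w (Sum.inl l) + w (Sum.inr l))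

/-- the same away from the component `j` -/
def Tj (j : s) (x c : ℝ) : (Jx K j → ℝ) →ₗ[ℝ] (Jx K j → ℝ) where
  toFun u := fun k => match k with
    | ⟨Sum.inl l, h⟩ => x * u ⟨Sum.inl l, h⟩
    | ⟨Sum.inr l, h⟩ => c * u ⟨Sum.inl l, h⟩ + u ⟨Sum.inr l, h⟩
  map_add' u v := by
    funext k
    rcases k with ⟨l | l, h⟩
    · simp only [Pi.add_apply]; ring
    · simp only [Pi.add_apply]; ring
  map_smul' t u := by
    funext k
    rcases k with ⟨l | l, h⟩
    · simp only [Pi.smul_apply, smul_eq_mul, RingHom.id_apply]; ring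
    · simp only [Pi.smul_apply, smul_eq_mul, RingHom.id_apply]; ring

theorem Tj_inl (j : s) (x c : ℝ) (u : Jx K j → ℝ) (l : Ix K) (h : cm (Sum.inl l) ≠ j) :
    Tj j x c u ⟨Sum.inl l, h⟩ = x * u ⟨Sum.inl l, h⟩ := rfl

theorem Tj_inr (j : s) (x c : ℝ) (u : Jx K j → ℝ) (l : Ix K) (h : cm (Sum.inr l) ≠ j) :
    Tj j x c u ⟨Sum.inr l, h⟩ = c * u ⟨Sum.inl l, h⟩ + u ⟨Sum.inr l, h⟩ := rfl

/-- the equivalence given by the matrix -/
noncomputable def Tje (j : s) (x c : ℝ) (hx : x ≠ 0) : (Jx K j → ℝ) ≃ₗ[ℝ] (Jx K j → ℝ) where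
  __ := Tj j x c
  invFun := Tj j x⁻¹ (-(c * x⁻¹))
  left_inv u := by
    funext k
    rcases k with ⟨l | l, h⟩
    · show x⁻¹ * (x * u ⟨Sum.inl l, h⟩) = _
      rw [inv_mul_cancel_left₀ hx]
    · show -(c * x⁻¹) * (x * u ⟨Sum.inl l, h⟩) + (c * u ⟨Sum.inl l, h⟩ + u ⟨Sum.inr l, h⟩) = _
      field_simp
      ring
  right_inv u := by
    funext k
    rcases k with ⟨l | l, h⟩
    · show x * (x⁻¹ * u ⟨Sum.inl l, h⟩) = _
      rw [mul_inv_cancel_left₀ hx]
    · show c * (x⁻¹ * u ⟨Sum.inl l, h⟩) + (-(c * x⁻¹) * u ⟨Sum.inl l, h⟩ + u ⟨Sum.inr l, h⟩) = _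
      ring

theorem Tj_null (j : s) (x c : ℝ) (hx : x ≠ 0) (S : Set (Jx K j → ℝ)) (hS : volume S = 0) :
    volume ((Tj j x c : (Jx K j → ℝ) → (Jx K j → ℝ)) ⁻¹' S) = 0 := by
  have h1 := Measure.addHaar_preimage_linearEquiv (volume : Measure (Jx K j → ℝ))
    (Tje j x c hx) S
  rw [hS, mul_zero] at h1
  exact h1

theorem sl_inl {R : Type} [Zero R] [One R] (j : s) (u : Jx K j → R) (l : Ix K)
    (h : cm (K := K) (Sum.inl l) ≠ j) : sl j u (Sum.inl l) = u ⟨Sum.inl l, h⟩ := by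
  unfold sl
  rw [dif_neg h]

theorem sl_inr {R : Type} [Zero R] [One R] (j : s) (u : Jx K j → R) (l : Ix K)
    (h : cm (K := K) (Sum.inr l) ≠ j) : sl j u (Sum.inr l) = u ⟨Sum.inr l, h⟩ := by
  unfold sl
  rw [dif_neg h]

theorem sl_inl' {R : Type} [Zero R] [One R] (j : s) (u : Jx K j → R) (l : Ix K)
    (h : cm (K := K) (Sum.inl l) = j) : sl j u (Sum.inl l) = 0 := by
  unfold sl
  rw [dif_pos h]
  rfl

theorem sl_inr' {R : Type} [Zero R] [One R] (j : s) (u : Jx K j → R) (l : Ix K)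
    (h : cm (K := K) (Sum.inr l) = j) : sl j u (Sum.inr l) = 1 := by
  unfold sl
  rw [dif_pos h]
  rfl

theorem sl_Tj (j : s) (x c : ℝ) (u : Jx K j → ℝ) : sl j (Tj j x c u) = TT x c (sl j u) := by
  funext k
  rcases k with l | l
  · by_cases h : cm (K := K) (Sum.inl l) = j
    · show _ = x * sl j u (Sum.inl l)
      rw [sl_inl' _ _ _ h, sl_inl' _ _ _ h, mul_zero]
    · show _ = x * sl j u (Sum.inl l)
      rw [sl_inl _ _ _ h, sl_inl _ _ _ h, Tj_inl]
  · by_cases h : cm (K := K) (Sum.inr l) = j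
    · show _ = c * sl j u (Sum.inl l) + sl j u (Sum.inr l)
      rw [sl_inr' _ _ _ h, sl_inr' _ _ _ h, sl_inl' _ _ _ h, mul_zero, zero_add]
    · show _ = c * sl j u (Sum.inl l) + sl j u (Sum.inr l)
      rw [sl_inr _ _ _ h, sl_inr _ _ _ h, sl_inl _ _ _ h, Tj_inr]

theorem rw2_TT (b : Bs K) (x c : ℝ) (w : Ix K ⊕ Ix K → ℝ) (e : Em K) :
    rw2 b (TT x c w) e = gl (x : ℂ) ((0 : ℝ) : ℂ) c ((1 : ℝ) : ℂ) (rw2 b w e) := by
  have h1 : (fun l => TT x c w (Sum.inl ⟨e.1, l⟩)) = x • fun l => w (Sum.inl ⟨e.1, l⟩) := rfl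
  have h2 : (fun l => TT x c w (Sum.inr ⟨e.1, l⟩)) =
      (c • fun l => w (Sum.inl ⟨e.1, l⟩)) + fun l => w (Sum.inr ⟨e.1, l⟩) := rfl
  unfold rw2
  rw [h1, h2, Pool.Agent.Y714.KF.sg_add, Pool.Agent.Y714.KF.sg_smul,
    Pool.Agent.Y714.KF.sg_smul]
  unfold gl
  simp

theorem rw2_Tj (b : Bs K) (j : s) (x c : ℝ) (u : Jx K j → ℝ) :
    rw2 b (sl j (Tj j x c u)) =
      fun e => gl (x : ℂ) ((0 : ℝ) : ℂ) c ((1 : ℝ) : ℂ) (rw2 b (sl j u) e) := by
  funext e
  rw [sl_Tj, rw2_TT]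

theorem bfA_TT1 (b : Bs K) (x c : ℝ) (w : Ix K ⊕ Ix K → ℝ) :
    bfA b (lf (TT x c w)) (lf (TT x c w)) = x ^ 2 * bfA b (lf w) (lf w) := by
  unfold bfA
  rw [mul_sum]
  refine sum_congr rfl fun i _ => ?_
  have h1 : (fun l => lf (TT x c w) ⟨i, l⟩) = x • fun l => lf w ⟨i, l⟩ := rfl
  rw [h1, Pool.Agent.Y714.KF.bf_smul_left, Pool.Agent.Y714.KF.bf_smul_right]
  ring

theorem bfA_TT2 (b : Bs K) (x c : ℝ) (w : Ix K ⊕ Ix K → ℝ) :
    bfA b (lf (TT x c w)) (rt (TT x c w)) =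
      x * c * bfA b (lf w) (lf w) + x * bfA b (lf w) (rt w) := by
  unfold bfA
  rw [mul_sum, mul_sum, ← sum_add_distrib]
  refine sum_congr rfl fun i _ => ?_
  have h1 : (fun l => lf (TT x c w) ⟨i, l⟩) = x • fun l => lf w ⟨i, l⟩ := rfl
  have h2 : (fun l => rt (TT x c w) ⟨i, l⟩) =
      (c • fun l => lf w ⟨i, l⟩) + fun l => rt w ⟨i, l⟩ := rfl
  rw [h1, h2, Pool.Agent.Y714.KF.bf_smul_left, Pool.Agent.Y714.KF.bf_add_right,
    Pool.Agent.Y714.KF.bf_smul_right]
  ring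

theorem continuous_sl (j : s) : Continuous (sl (K := K) (R := ℝ) j) := by
  refine continuous_pi fun k => ?_
  unfold sl
  by_cases h : cm k = j
  · simp only [h, dite_true]
    exact continuous_const
  · simp only [h, dite_false]
    exact continuous_apply _

theorem continuous_bfA (b : Bs K) {X : Type} [TopologicalSpace X] {f g : X → Ix K → ℝ}
    (hf : Continuous f) (hg : Continuous g) : Continuous fun u => bfA b (f u) (g u) := by
  unfold bfA bf
  refine continuous_finsetSum _ fun i _ => continuous_finsetSum _ fun σ _ =>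
    Complex.continuous_re.comp (Continuous.mul ?_ (Complex.continuous_conj.comp ?_))
  · exact (Pool.Agent.Y714.KF.continuous_sg (b i) σ).comp
      (continuous_pi fun l => (continuous_apply _).comp hf)
  · exact (Pool.Agent.Y714.KF.continuous_sg (b i) σ).comp
      (continuous_pi fun l => (continuous_apply _).comp hg)

/-! ### brackets -/

/-- the left coordinates of an element -/
noncomputable def vl (b : Bs K) (θ : Al K) : Ix K ⊕ Ix K → ℝ :=
  Sum.elim (fun l => Pool.Agent.Y714.KF.rc (b l.1) (θ l.1) l.2) (fun _ => 0)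

/-- the right coordinates of an element -/
noncomputable def vr (b : Bs K) (θ : Al K) : Ix K ⊕ Ix K → ℝ :=
  Sum.elim (fun _ => 0) (fun l => Pool.Agent.Y714.KF.rc (b l.1) (θ l.1) l.2)

theorem sg_zero {F : Type} [Field F] [NumberField F] {ι : Type} [Fintype ι] [DecidableEq ι]
    (b : Basis ι ℚ F) (σ : F →+* ℂ) : sg b σ (fun _ => 0) = 0 := by
  unfold sg
  simp

theorem rw2_vl (b : Bs K) (θ : Al K) (e : Em K) : rw2 b (vl b θ) e = (e.2 (θ e.1), 0) := by
  refine Prod.ext ?_ ?_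
  · exact Pool.Agent.Y714.KF.sg_rc (b e.1) e.2 (θ e.1)
  · exact sg_zero (b e.1) e.2

theorem rw2_vr (b : Bs K) (θ : Al K) (e : Em K) : rw2 b (vr b θ) e = (0, e.2 (θ e.1)) := by
  refine Prod.ext ?_ ?_
  · exact sg_zero (b e.1) e.2
  · exact Pool.Agent.Y714.KF.sg_rc (b e.1) e.2 (θ e.1)

theorem rc_zero {F : Type} [Field F] [NumberField F] {ι : Type} [Fintype ι] [DecidableEq ι]
    (b : Basis ι ℚ F) (l : ι) : Pool.Agent.Y714.KF.rc b 0 l = 0 := by
  unfold Pool.Agent.Y714.KF.rc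
  simp

theorem vl_zero (b : Bs K) {θ : Al K} {j : s} (h : θ j = 0) (k : Ix K ⊕ Ix K) (hk : cm k = j) :
    vl b θ k = 0 := by
  rcases k with l | l
  · subst hk
    show Pool.Agent.Y714.KF.rc (b l.1) (θ l.1) l.2 = 0
    have h' : θ l.1 = 0 := h
    rw [h', rc_zero]
  · rfl

theorem vr_zero (b : Bs K) {θ : Al K} {j : s} (h : θ j = 0) (k : Ix K ⊕ Ix K) (hk : cm k = j) :
    vr b θ k = 0 := by
  rcases k with l | l
  · rfl
  · subst hk
    show Pool.Agent.Y714.KF.rc (b l.1) (θ l.1) l.2 = 0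
    have h' : θ l.1 = 0 := h
    rw [h', rc_zero]

/-- restriction to the coordinates away from `j` -/
def rs (j : s) (v : Ix K ⊕ Ix K → ℝ) : Jx K j → ℝ := fun k => v k.1

theorem sl_rs (j : s) (u : Jx K j → ℝ) (t : ℝ) {v : Ix K ⊕ Ix K → ℝ}
    (hv : ∀ k, cm k = j → v k = 0) : sl j (u + t • rs j v) = sl j u + t • v := by
  funext k
  rw [Pi.add_apply, Pi.smul_apply]
  unfold sl
  by_cases h : cm k = j
  · rw [dif_pos h, dif_pos h, hv k h, smul_zero, add_zero]
  · rw [dif_neg h, dif_neg h]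
    rfl

theorem rw2_add (b : Bs K) (w v : Ix K ⊕ Ix K → ℝ) (t : ℝ) (e : Em K) :
    rw2 b (w + t • v) e = rw2 b w e + (t : ℂ) • rw2 b v e := by
  have h1 : (fun l => (w + t • v) (Sum.inl ⟨e.1, l⟩)) =
      (fun l => w (Sum.inl ⟨e.1, l⟩)) + t • fun l => v (Sum.inl ⟨e.1, l⟩) := rfl
  have h2 : (fun l => (w + t • v) (Sum.inr ⟨e.1, l⟩)) =
      (fun l => w (Sum.inr ⟨e.1, l⟩)) + t • fun l => v (Sum.inr ⟨e.1, l⟩) := rfl
  unfold rw2
  rw [h1, h2, Pool.Agent.Y714.KF.sg_add, Pool.Agent.Y714.KF.sg_smul,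
    Pool.Agent.Y714.KF.sg_add, Pool.Agent.Y714.KF.sg_smul]
  rfl

theorem rw2_vl_add (b : Bs K) {j : s} {θ : Al K} (hθ : θ j = 0) (u : Jx K j → ℝ) (t : ℝ)
    (e : Em K) : rw2 b (sl j (u + t • rs j (vl b θ))) e =
      ((rw2 b (sl j u) e).1 + t * e.2 (θ e.1), (rw2 b (sl j u) e).2) := by
  rw [sl_rs j u t (vl_zero b hθ), rw2_add, rw2_vl]
  refine Prod.ext ?_ ?_
  · simp
  · simp

theorem rw2_vr_add (b : Bs K) {j : s} {θ : Al K} (hθ : θ j = 0) (u : Jx K j → ℝ) (t : ℝ)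
    (e : Em K) : rw2 b (sl j (u + t • rs j (vr b θ))) e =
      ((rw2 b (sl j u) e).1, (rw2 b (sl j u) e).2 + t * e.2 (θ e.1)) := by
  rw [sl_rs j u t (vr_zero b hθ), rw2_add, rw2_vr]
  refine Prod.ext ?_ ?_
  · simp
  · simp

theorem continuous_rwj (b : Bs K) (j : s) (e : Em K) :
    Continuous fun u : Jx K j → ℝ => rw2 b (sl j u) e :=
  (continuous_apply e).comp ((continuous_rw2 b).comp (continuous_sl j))

/-- the left value vanishes on a null set -/
theorem null_left (b : Bs K) (j : s) (e : Em K) (he : e.1 ≠ j) :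
    volume {u : Jx K j → ℝ | (rw2 b (sl j u) e).1 = 0} = 0 := by
  have hθ : (Pi.single e.1 1 : Al K) j = 0 := Pi.single_eq_of_ne (Ne.symm he) 1
  refine null_of_levels _ (fun u => ((rw2 b (sl j u) e).1).re) ?_ (fun t => t)
    (fun t _ t' _ h => h) (fun t u => u + t • rs j (vl b (Pi.single e.1 1)))
    (fun t _ S hS => trans_null _ S hS) ?_
  · exact (Complex.continuous_re.comp (continuous_fst.comp (continuous_rwj b j e))).measurable
  · intro t ht u hu
    have hu' : (rw2 b (sl j u) e).1 = 0 := hu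
    show ((rw2 b (sl j (u + t • rs j (vl b (Pi.single e.1 1)))) e).1).re = t
    rw [rw2_vl_add b hθ, hu']
    simp

/-- the derivative of the bracket -/
noncomputable def Dv (b : Bs K) (j : s) (θ : Al K) (e f : Em K) (u : Jx K j → ℝ) : ℂ :=
  (rw2 b (sl j u) e).1 * f.2 (θ f.1) - e.2 (θ e.1) * (rw2 b (sl j u) f).1

theorem null_dv (b : Bs K) (j : s) {θ : Al K} (hθ : θ j = 0) (e f : Em K) :
    volume {u : Jx K j → ℝ | br (rw2 b (sl j u) e) (rw2 b (sl j u) f) = 0 ∧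
      Dv b j θ e f u ≠ 0} = 0 := by
  have hc1 := continuous_rwj b j e
  have hc2 := continuous_rwj b j f
  refine null_of_levels _ (fun u => (br (rw2 b (sl j u) e) (rw2 b (sl j u) f) /
    Dv b j θ e f u).re) ?_ (fun t => t)
    (fun t _ t' _ h => h) (fun t u => u + t • rs j (vr b θ))
    (fun t _ S hS => trans_null _ S hS) ?_
  · refine Complex.measurable_re.comp (Measurable.div ?_ ?_)
    · exact (Pool.Agent.Y714.KF.continuous_br.comp (hc1.prodMk hc2)).measurable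
    · unfold Dv
      exact (((continuous_fst.comp hc1).mul continuous_const).sub
        (continuous_const.mul (continuous_fst.comp hc2))).measurable
  · rintro t ht u ⟨hu, hD⟩
    have h1 : Dv b j θ e f (u + t • rs j (vr b θ)) = Dv b j θ e f u := by
      unfold Dv
      rw [rw2_vr_add b hθ, rw2_vr_add b hθ]
    have h2 : br (rw2 b (sl j (u + t • rs j (vr b θ))) e)
        (rw2 b (sl j (u + t • rs j (vr b θ))) f) =
        br (rw2 b (sl j u) e) (rw2 b (sl j u) f) + t * Dv b j θ e f u := by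
      rw [rw2_vr_add b hθ, rw2_vr_add b hθ]
      unfold br Dv
      ring
    show (br (rw2 b (sl j (u + t • rs j (vr b θ))) e)
        (rw2 b (sl j (u + t • rs j (vr b θ))) f) / Dv b j θ e f (u + t • rs j (vr b θ))).re = t
    rw [h1, h2, hu, zero_add, mul_div_assoc, div_self hD, mul_one, Complex.ofReal_re]

theorem null_ne (b : Bs K) (j : s) (e f : Em K) (hef : e ≠ f) (he : e.1 ≠ j) (hf : f.1 ≠ j) :
    volume {u : Jx K j → ℝ | br (rw2 b (sl j u) e) (rw2 b (sl j u) f) = 0} = 0 := by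
  obtain ⟨i, σ⟩ := e
  obtain ⟨i', τ⟩ := f
  by_cases hi : i = i'
  · subst hi
    have hστ : σ ≠ τ := fun h => hef (by rw [h])
    obtain ⟨θ, hθ⟩ : ∃ θ : K i, σ θ ≠ τ θ := by
      by_contra hcon
      push Not at hcon
      exact hστ (RingHom.ext hcon)
    have h1 : (Pi.single i 1 : Al K) j = 0 := Pi.single_eq_of_ne (Ne.symm he) 1
    have h2 : (Pi.single i θ : Al K) j = 0 := Pi.single_eq_of_ne (Ne.symm he) θ
    refine measure_mono_null (?_ : _ ⊆ {u : Jx K j → ℝ | (rw2 b (sl j u) ⟨i, σ⟩).1 = 0} ∪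
      ({u : Jx K j → ℝ | br (rw2 b (sl j u) ⟨i, σ⟩) (rw2 b (sl j u) ⟨i, τ⟩) = 0 ∧
        Dv b j (Pi.single i 1) ⟨i, σ⟩ ⟨i, τ⟩ u ≠ 0} ∪
      {u : Jx K j → ℝ | br (rw2 b (sl j u) ⟨i, σ⟩) (rw2 b (sl j u) ⟨i, τ⟩) = 0 ∧
        Dv b j (Pi.single i θ) ⟨i, σ⟩ ⟨i, τ⟩ u ≠ 0}))
      (measure_union_null (null_left b j ⟨i, σ⟩ he)
        (measure_union_null (null_dv b j h1 _ _) (null_dv b j h2 _ _)))
    intro u hu
    by_cases e1 : (rw2 b (sl j u) ⟨i, σ⟩).1 = 0
    · exact Or.inl e1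
    by_cases e2 : Dv b j (Pi.single i 1) ⟨i, σ⟩ ⟨i, τ⟩ u = 0
    · refine Or.inr (Or.inr ⟨hu, fun e3 => ?_⟩)
      unfold Dv at e2 e3
      simp only [Pi.single_eq_same, map_one, mul_one, one_mul] at e2 e3
      have e4 : (rw2 b (sl j u) ⟨i, σ⟩).1 = (rw2 b (sl j u) ⟨i, τ⟩).1 := sub_eq_zero.1 e2
      rw [← e4] at e3
      have e5 : (rw2 b (sl j u) ⟨i, σ⟩).1 * (τ θ - σ θ) = 0 := by linear_combination e3
      rcases mul_eq_zero.1 e5 with h | h
      · exact e1 h
      · exact hθ (sub_eq_zero.1 h).symm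
    · exact Or.inr (Or.inl ⟨hu, e2⟩)
  · have h1 : (Pi.single i' 1 : Al K) j = 0 := Pi.single_eq_of_ne (Ne.symm hf) 1
    refine measure_mono_null (?_ : _ ⊆ {u : Jx K j → ℝ | (rw2 b (sl j u) ⟨i, σ⟩).1 = 0} ∪
      {u : Jx K j → ℝ | br (rw2 b (sl j u) ⟨i, σ⟩) (rw2 b (sl j u) ⟨i', τ⟩) = 0 ∧
        Dv b j (Pi.single i' 1) ⟨i, σ⟩ ⟨i', τ⟩ u ≠ 0})
      (measure_union_null (null_left b j ⟨i, σ⟩ he) (null_dv b j h1 _ _))
    intro u hu
    by_cases e1 : (rw2 b (sl j u) ⟨i, σ⟩).1 = 0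
    · exact Or.inl e1
    · refine Or.inr ⟨hu, fun e3 => e1 ?_⟩
      unfold Dv at e3
      simp only [Pi.single_eq_same, map_one, mul_one] at e3
      rw [Pi.single_eq_of_ne hi, map_zero, zero_mul, sub_zero] at e3
      exact e3

/-- the bracket with the vector of the component `j` -/
theorem null_j (b : Bs K) (j : s) (hj : finrank ℚ (K j) = 1) (σ : K j →+* ℂ) (f : Em K)
    (hf : f.1 ≠ j) :
    volume {u : Jx K j → ℝ | br (rw2 b (sl j u) ⟨j, σ⟩) (rw2 b (sl j u) f) = 0} = 0 := by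
  have hsub : Subsingleton (K j →+* ℂ) := by
    rw [← Fintype.card_le_one_iff_subsingleton, Pool.Agent.Y714.KF.card_emb, hj]
  have h1 : sg (b j) σ (fun _ => 1) ≠ 0 := by
    intro h0
    have h2 := Pool.Agent.Y714.KF.sg_ne (b j) (fun _ => 1) (fun τ => by
      rw [Subsingleton.elim τ σ]; exact h0)
    have h3 := congrFun h2 ⟨0, by rw [hj]; exact one_pos⟩
    exact one_ne_zero h3
  refine measure_mono_null (?_ : _ ⊆ {u : Jx K j → ℝ | (rw2 b (sl j u) f).1 = 0})
    (null_left b j f hf)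
  intro u hu
  have hu' : br (rw2 b (sl j u) ⟨j, σ⟩) (rw2 b (sl j u) f) = 0 := hu
  have h2 : rw2 b (sl j u) ⟨j, σ⟩ = (0, sg (b j) σ (fun _ => 1)) := by
    refine Prod.ext ?_ ?_
    · show sg (b j) σ (fun l => sl j u (Sum.inl ⟨j, l⟩)) = 0
      have : (fun l => sl j u (Sum.inl ⟨j, l⟩)) = fun _ => (0 : ℝ) := by
        funext l
        exact sl_inl' j u ⟨j, l⟩ rfl
      rw [this, sg_zero]
    · show sg (b j) σ (fun l => sl j u (Sum.inr ⟨j, l⟩)) = _
      have : (fun l => sl j u (Sum.inr ⟨j, l⟩)) = fun _ => (1 : ℝ) := by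
        funext l
        exact sl_inr' j u ⟨j, l⟩ rfl
      rw [this]
  rw [h2] at hu'
  unfold br at hu'
  simp only [zero_mul, zero_sub, neg_eq_zero] at hu'
  exact (mul_eq_zero.1 hu').resolve_left h1

theorem brj : S_BRJ K := by
  intro b j hj e f hef
  by_cases he : e.1 = j
  · by_cases hf : f.1 = j
    · exfalso
      obtain ⟨i, σ⟩ := e
      obtain ⟨i', τ⟩ := f
      simp only at he hf
      subst he
      subst hf
      have hsub : Subsingleton (K i' →+* ℂ) := by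
        rw [← Fintype.card_le_one_iff_subsingleton, Pool.Agent.Y714.KF.card_emb, hj]
      exact hef (by rw [Subsingleton.elim σ τ])
    · obtain ⟨i, σ⟩ := e
      simp only at he
      subst he
      exact null_j b i hj σ f hf
  · by_cases hf : f.1 = j
    · obtain ⟨i, σ⟩ := f
      simp only at hf
      subst hf
      have h := null_j b i hj σ e he
      refine measure_mono_null (fun u hu => ?_) h
      have hu' : br (rw2 b (sl i u) e) (rw2 b (sl i u) ⟨i, σ⟩) = 0 := hu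
      show br (rw2 b (sl i u) ⟨i, σ⟩) (rw2 b (sl i u) e) = 0
      rw [Pool.Agent.Y714.KF.br_swap, hu', neg_zero]
    · exact null_ne b j e f hef he hf

/-! ### null boundaries -/

theorem pm_Tj (b : Bs K) (j : s) (x c : ℝ) (hx : 0 < x) (u : Jx K j → ℝ) :
    pm (rw2 b (sl j (Tj j x c u))) = x ^ dg K * pm (rw2 b (sl j u)) := by
  rw [rw2_Tj, Pool.Agent.Y714.KF.pm_gl, card_Em]
  have h : (x : ℂ) * ((1 : ℝ) : ℂ) - ((0 : ℝ) : ℂ) * c = (x : ℂ) := by push_cast; ring
  rw [h, Complex.norm_real, Real.norm_eq_abs, abs_of_pos hx]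

theorem br_Tj (b : Bs K) (j : s) (x c : ℝ) (u : Jx K j → ℝ) (e f : Em K) :
    br (rw2 b (sl j (Tj j x c u)) e) (rw2 b (sl j (Tj j x c u)) f) =
      x * br (rw2 b (sl j u) e) (rw2 b (sl j u) f) := by
  rw [rw2_Tj, Pool.Agent.Y714.KF.br_gl]
  congr 1
  push_cast
  ring

theorem ui_Tj (hodd : Odd (dg K)) (b : Bs K) (j : s) (x c : ℝ) (hx : 0 < x) (u : Jx K j → ℝ)
    (hu : 0 < pm (rw2 b (sl j u))) (i : s) :
    ui (rw2 b (sl j (Tj j x c u))) i = ui (rw2 b (sl j u)) i + (1 / 2) * Real.log x := by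
  have h : (x : ℂ) * ((1 : ℝ) : ℂ) - ((0 : ℝ) : ℂ) * c = (x : ℂ) := by push_cast; ring
  have h1 := (gla (rw2 b (sl j u)) hu (pm_ext_pos hodd hu) x ((0 : ℝ) : ℂ) c ((1 : ℝ) : ℂ)
    (by rw [h]; exact_mod_cast hx.ne')).2 i
  rw [h, Complex.norm_real, Real.norm_eq_abs, abs_of_pos hx] at h1
  rw [rw2_Tj]
  exact h1

theorem nuj (h1 : S_CCC K) (h2 : S_BRJ K) : S_NUJ K := by
  classical
  intro hodd hn b i₀ j hj
  obtain ⟨hcc, hui⟩ := h1 hodd hn b
  -- abbreviations
  let q1 : (Jx K j → ℝ) → ℝ := fun u => bfA b (lf (sl j u)) (lf (sl j u))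
  let q : (Jx K j → ℝ) → ℝ := fun u => bfA b (lf (sl j u)) (rt (sl j u))
  let P : (Jx K j → ℝ) → ℝ := fun u => pm (rw2 b (sl j u))
  let U : Set (Jx K j → ℝ) :=
    {u | ∀ e f : Em K, e ≠ f → br (rw2 b (sl j u) e) (rw2 b (sl j u) f) ≠ 0}
  have csl : Continuous (sl (K := K) (R := ℝ) j) := continuous_sl j
  have clf : Continuous fun u : Jx K j → ℝ => lf (sl j u) :=
    continuous_pi fun k => (continuous_apply _).comp csl
  have crt : Continuous fun u : Jx K j → ℝ => rt (sl j u) :=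
    continuous_pi fun k => (continuous_apply _).comp csl
  have cq1 : Continuous q1 := continuous_bfA b clf clf
  have cs : Continuous q := continuous_bfA b clf crt
  have cP : Continuous P := Pool.Agent.Y714.KF.continuous_pm.comp ((continuous_rw2 b).comp csl)
  have q1m : ∀ x c u, q1 (Tj j x c u) = x ^ 2 * q1 u := by
    intro x c u
    show bfA b (lf (sl j (Tj j x c u))) (lf (sl j (Tj j x c u))) = _
    rw [sl_Tj, bfA_TT1]
  have qm : ∀ x c u, q (Tj j x c u) = x * c * q1 u + x * q u := by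
    intro x c u
    show bfA b (lf (sl j (Tj j x c u))) (rt (sl j (Tj j x c u))) = _
    rw [sl_Tj, bfA_TT2]
  have hn0 : dg K ≠ 0 := by omega
  have n1 : ∀ c : ℝ, 0 < c → volume {u | q1 u = c} = 0 := by
    intro c hc
    refine null_of_levels _ q1 cq1.measurable (fun t => t ^ 2 * c) ?_ (fun t => Tj j t 0)
      (fun t ht S hS => Tj_null j t 0 ht.ne' S hS) ?_
    · intro t ht t' ht' h
      have h3 : t ^ 2 = t' ^ 2 := mul_right_cancel₀ hc.ne' h
      exact (pow_left_inj₀ (le_of_lt ht) (le_of_lt ht') two_ne_zero).1 h3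
    · intro t ht u hu
      have hu' : q1 u = c := hu
      rw [q1m, hu']
  have n2 : volume {u | P u = 1} = 0 := by
    refine null_of_levels _ P cP.measurable (fun t => t ^ dg K) ?_ (fun t => Tj j t 0)
      (fun t ht S hS => Tj_null j t 0 ht.ne' S hS) ?_
    · intro t ht t' ht' h
      exact (pow_left_inj₀ (le_of_lt ht) (le_of_lt ht') hn0).1 h
    · intro t ht u hu
      have hu' : pm (rw2 b (sl j u)) = 1 := hu
      show pm (rw2 b (sl j (Tj j t 0 u))) = t ^ dg K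
      rw [pm_Tj b j t 0 ht, hu', mul_one]
  have n4 : ∀ c : ℝ, volume {u | q u = c * q1 u ∧ q1 u ≠ 0} = 0 := by
    intro c
    refine null_of_levels _ (fun u => q u / q1 u) (cs.measurable.div cq1.measurable)
      (fun t => c + t) ?_ (fun t => Tj j 1 t)
      (fun t ht S hS => Tj_null j 1 t one_ne_zero S hS) ?_
    · intro t _ t' _ h
      exact add_left_cancel h
    · rintro t ht u ⟨hu, hu0⟩
      show q (Tj j 1 t u) / q1 (Tj j 1 t u) = c + t
      have a1 : q1 (Tj j 1 t u) = q1 u := by rw [q1m]; ring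
      have a2 : q (Tj j 1 t u) = (c + t) * q1 u := by rw [qm, hu]; ring
      rw [a1, a2, mul_div_assoc, div_self hu0, mul_one]
  -- U
  have hUc : volume Uᶜ = 0 := by
    have h3 : Uᶜ ⊆ ⋃ q : Em K × Em K, {u | q.1 ≠ q.2 ∧
        br (rw2 b (sl j u) q.1) (rw2 b (sl j u) q.2) = 0} := by
      intro u hu
      simp only [U, Set.mem_compl_iff, Set.mem_ofPred_eq] at hu
      push Not at hu
      obtain ⟨σ, τ, hne, h0⟩ := hu
      exact Set.mem_iUnion.2 ⟨(σ, τ), hne, h0⟩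
    refine measure_mono_null h3 (measure_iUnion_null fun q => ?_)
    by_cases hq : q.1 = q.2
    · refine measure_mono_null (?_ : _ ⊆ (∅ : Set (Jx K j → ℝ))) measure_empty
      intro u hu
      exact absurd hq hu.1
    · exact measure_mono_null (fun u hu => hu.2) (h2 b j hj q.1 q.2 hq)
  have hUo : IsOpen U := by
    have h3 : U = ⋂ q : Em K × Em K, {u | q.1 ≠ q.2 →
        br (rw2 b (sl j u) q.1) (rw2 b (sl j u) q.2) ≠ 0} := by
      ext u
      simp only [U, Set.mem_ofPred_eq, Set.mem_iInter, Prod.forall]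
    rw [h3]
    refine isOpen_iInter_of_finite fun q => ?_
    by_cases hq : q.1 = q.2
    · have : {u : Jx K j → ℝ | q.1 ≠ q.2 →
          br (rw2 b (sl j u) q.1) (rw2 b (sl j u) q.2) ≠ 0} = Set.univ := by
        ext u
        simp [hq]
      rw [this]
      exact isOpen_univ
    · have h4 : {u : Jx K j → ℝ | q.1 ≠ q.2 →
          br (rw2 b (sl j u) q.1) (rw2 b (sl j u) q.2) ≠ 0} =
          {u | br (rw2 b (sl j u) q.1) (rw2 b (sl j u) q.2) ≠ 0} := by
        ext u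
        simp [hq]
      rw [h4]
      have h5 : Continuous fun u : Jx K j → ℝ =>
          br (rw2 b (sl j u) q.1) (rw2 b (sl j u) q.2) :=
        Pool.Agent.Y714.KF.continuous_br.comp
          ((continuous_rwj b j q.1).prodMk (continuous_rwj b j q.2))
      exact isOpen_ne_fun h5 continuous_const
  have hUpm : ∀ u ∈ U, 0 < pm (rw2 b (sl j u)) := fun u hu =>
    Pool.Agent.Y714.KF.pm_pos (by rw [card_Em]; omega) hu
  have hUT : ∀ x : ℝ, 0 < x → ∀ u ∈ U, Tj j x 0 u ∈ U := by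
    intro x hx u hu e f hef
    rw [br_Tj]
    exact mul_ne_zero (by exact_mod_cast hx.ne') (hu e f hef)
  -- continuity on U
  have ccc : ∀ l, ContinuousOn (fun u => cc (rw2 b (sl j u)) l) U := fun l =>
    (hcc l).comp csl.continuousOn (fun u hu => hu)
  have cui : ∀ i, ContinuousOn (fun u => ui (rw2 b (sl j u)) i) U := fun i =>
    (hui i).comp csl.continuousOn (fun u hu => hu)
  let g : Ux K → (Jx K j → ℝ) → ℝ := fun l => U.piecewise (fun u => cc (rw2 b (sl j u)) l) (fun _ => 0)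
  let h : s → (Jx K j → ℝ) → ℝ := fun i => U.piecewise (fun u => ui (rw2 b (sl j u)) i) (fun _ => 0)
  have hg : ∀ l, Measurable (g l) := fun l =>
    (ccc l).measurable_piecewise continuousOn_const hUo.measurableSet
  have hh : ∀ i, Measurable (h i) := fun i =>
    (cui i).measurable_piecewise continuousOn_const hUo.measurableSet
  have hgU : ∀ l, ∀ u ∈ U, g l u = cc (rw2 b (sl j u)) l :=
    fun l u hu => Set.piecewise_eq_of_mem _ _ _ hu
  have hhU : ∀ i, ∀ u ∈ U, h i u = ui (rw2 b (sl j u)) i :=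
    fun i u hu => Set.piecewise_eq_of_mem _ _ _ hu
  have n5 : ∀ (i : s) (c : ℝ), volume {u | u ∈ U ∧ ui (rw2 b (sl j u)) i = c} = 0 := by
    intro i c
    refine null_of_levels _ (h i) (hh i) (fun t => c + (1 / 2) * Real.log t) ?_
      (fun t => Tj j t 0) (fun t ht S hS => Tj_null j t 0 ht.ne' S hS) ?_
    · intro t ht t' ht' he
      have h3 : Real.log t = Real.log t' := by
        have := add_left_cancel he
        linarith
      exact Real.log_injOn_pos ht ht' h3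
    · rintro t ht u ⟨hu, hc⟩
      rw [hhU i _ (hUT t ht u hu), ui_Tj hodd b j t 0 ht u (hUpm u hu), hc]
  -- the exceptional levels
  refine ⟨fun l => {t : ℝ | 0 < volume {u | g l u = t}} ∪
    (fun t => t - 1) '' {t : ℝ | 0 < volume {u | g l u = t}}, fun l => ?_, fun κ hκ δ hδ => ?_⟩
  · have hc := Measure.countable_meas_level_set_pos
      (μ := (volume : Measure (Jx K j → ℝ))) (hg l)
    exact hc.union (hc.image (fun t => t - 1))
  have hκ1 : ∀ l, volume {u | g l u = κ l} = 0 := by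
    intro l
    by_contra h0
    exact hκ l (Or.inl (pos_iff_ne_zero.2 h0))
  have hκ2 : ∀ l, volume {u | g l u = κ l + 1} = 0 := by
    intro l
    by_contra h0
    exact hκ l (Or.inr ⟨κ l + 1, pos_iff_ne_zero.2 h0, by ring⟩)
  have hδ2 : 0 < δ ^ 2 := by positivity
  have hsub : closure (Dcj b κ i₀ j δ) \ Dmj b κ i₀ j δ ⊆ Uᶜ ∪ ({u | q1 u = δ ^ 2} ∪
      ({u | P u = 1} ∪ ({u | q u = 0 * q1 u ∧ q1 u ≠ 0} ∪
      ({u | q u = 1 * q1 u ∧ q1 u ≠ 0} ∪ ((⋃ l, {u | g l u = κ l}) ∪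
      ((⋃ l, {u | g l u = κ l + 1}) ∪
      ((⋃ i, {u | u ∈ U ∧ ui (rw2 b (sl j u)) i = 0}) ∪
      (⋃ i, {u | u ∈ U ∧ ui (rw2 b (sl j u)) i = 1})))))))) := by
    rintro u ⟨hu, hnu⟩
    by_cases hU : u ∈ U
    swap
    · exact Or.inl hU
    have c1 : δ ^ 2 ≤ q1 u := closure_minimal (s := Dcj b κ i₀ j δ) (t := {u | δ ^ 2 ≤ q1 u})
      (fun v hv => hv.1) (isClosed_le continuous_const cq1) hu
    have c3 : 0 ≤ q u := closure_minimal (s := Dcj b κ i₀ j δ) (t := {u | 0 ≤ q u})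
      (fun v hv => hv.2.1) (isClosed_le continuous_const cs) hu
    have c4 : q u ≤ q1 u := closure_minimal (s := Dcj b κ i₀ j δ) (t := {u | q u ≤ q1 u})
      (fun v hv => hv.2.2.1) (isClosed_le cs cq1) hu
    have c5 : P u ≤ 1 := closure_minimal (s := Dcj b κ i₀ j δ) (t := {u | P u ≤ 1})
      (fun v hv => hv.2.2.2.2.1) (isClosed_le cP continuous_const) hu
    have c6 : ∀ l, κ l ≤ cc (rw2 b (sl j u)) l ∧ cc (rw2 b (sl j u)) l ≤ κ l + 1 := by
      intro l
      have h3 : ContinuousWithinAt (fun u => cc (rw2 b (sl j u)) l) (Dcj b κ i₀ j δ) u :=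
        ((ccc l).continuousAt (hUo.mem_nhds hU)).continuousWithinAt
      have h4 := h3.mem_closure hu
        (fun v hv => (show cc (rw2 b (sl j v)) l ∈ Set.Icc (κ l) (κ l + 1) from
        hv.2.2.2.2.2.1 l))
      rw [isClosed_Icc.closure_eq] at h4
      exact h4
    have c7 : ∀ i, i ≠ i₀ → 0 ≤ ui (rw2 b (sl j u)) i ∧ ui (rw2 b (sl j u)) i ≤ 1 := by
      intro i hi
      have h3 : ContinuousWithinAt (fun u => ui (rw2 b (sl j u)) i) (Dcj b κ i₀ j δ) u :=
        ((cui i).continuousAt (hUo.mem_nhds hU)).continuousWithinAt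
      have h4 := h3.mem_closure hu
        (fun v hv => (show ui (rw2 b (sl j v)) i ∈ Set.Icc 0 1 from
        hv.2.2.2.2.2.2 i hi))
      rw [isClosed_Icc.closure_eq] at h4
      exact h4
    have hq0 : q1 u ≠ 0 := by
      intro h0
      rw [h0] at c1
      linarith
    by_cases e1 : q1 u = δ ^ 2
    · exact Or.inr (Or.inl e1)
    by_cases e2 : P u = 1
    · exact Or.inr (Or.inr (Or.inl e2))
    by_cases e4 : q u = 0
    · exact Or.inr (Or.inr (Or.inr (Or.inl ⟨by rw [e4, zero_mul], hq0⟩)))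
    by_cases e5 : q u = q1 u
    · exact Or.inr (Or.inr (Or.inr (Or.inr (Or.inl ⟨by rw [e5, one_mul], hq0⟩))))
    by_cases e6 : ∃ l, cc (rw2 b (sl j u)) l = κ l
    · obtain ⟨l, hl⟩ := e6
      exact Or.inr (Or.inr (Or.inr (Or.inr (Or.inr (Or.inl
        (Set.mem_iUnion.2 ⟨l, (hgU l u hU).trans hl⟩))))))
    by_cases e7 : ∃ l, cc (rw2 b (sl j u)) l = κ l + 1
    · obtain ⟨l, hl⟩ := e7
      exact Or.inr (Or.inr (Or.inr (Or.inr (Or.inr (Or.inr (Or.inl
        (Set.mem_iUnion.2 ⟨l, (hgU l u hU).trans hl⟩)))))))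
    by_cases e8 : ∃ i, ui (rw2 b (sl j u)) i = 0
    · obtain ⟨i, hi⟩ := e8
      exact Or.inr (Or.inr (Or.inr (Or.inr (Or.inr (Or.inr (Or.inr (Or.inl
        (Set.mem_iUnion.2 ⟨i, hU, hi⟩))))))))
    by_cases e9 : ∃ i, ui (rw2 b (sl j u)) i = 1
    · obtain ⟨i, hi⟩ := e9
      exact Or.inr (Or.inr (Or.inr (Or.inr (Or.inr (Or.inr (Or.inr (Or.inr
        (Set.mem_iUnion.2 ⟨i, hU, hi⟩))))))))
    exfalso
    apply hnu
    push Not at e6 e7 e8 e9
    exact ⟨lt_of_le_of_ne c1 (Ne.symm e1), lt_of_le_of_ne c3 (Ne.symm e4),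
      lt_of_le_of_ne c4 e5, hU, lt_of_le_of_ne c5 e2, fun l =>
      ⟨lt_of_le_of_ne (c6 l).1 (Ne.symm (e6 l)), lt_of_le_of_ne (c6 l).2 (e7 l)⟩, fun i hi =>
      ⟨lt_of_le_of_ne (c7 i hi).1 (Ne.symm (e8 i)), lt_of_le_of_ne (c7 i hi).2 (e9 i)⟩⟩
  refine measure_mono_null hsub ?_
  refine measure_union_null hUc (measure_union_null (n1 _ hδ2) (measure_union_null n2
    (measure_union_null (n4 0) (measure_union_null (n4 1)
    (measure_union_null (measure_iUnion_null hκ1) (measure_union_null (measure_iUnion_null hκ2)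
    (measure_union_null (measure_iUnion_null fun i => n5 i 0)
      (measure_iUnion_null fun i => n5 i 1))))))))

/-! ### levels of the twisted size -/

theorem lej : S_LEJ K := by
  classical
  intro hodd hn ψ hψ b j hj c hc
  obtain ⟨-, hcont, -, hgl⟩ := hψ
  let V : Set (Jx K j → ℝ) := {u | 0 < pm (rw2 b (sl j u))}
  have csl : Continuous (sl (K := K) (R := ℝ) j) := continuous_sl j
  have crw : Continuous fun u : Jx K j → ℝ => rw2 b (sl j u) := (continuous_rw2 b).comp csl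
  have cP : Continuous fun u : Jx K j → ℝ => pm (rw2 b (sl j u)) :=
    Pool.Agent.Y714.KF.continuous_pm.comp crw
  have hVo : IsOpen V := isOpen_lt continuous_const cP
  have hcg : ContinuousOn (fun u : Jx K j → ℝ =>
      pm (rw2 b (sl j u)) * ψ (rw2 b (sl j u))) V := by
    refine cP.continuousOn.mul ?_
    exact hcont.comp crw.continuousOn (fun u hu => ⟨SYM_rw2 b _, hu⟩)
  let g : (Jx K j → ℝ) → ℝ := V.piecewise
    (fun u => pm (rw2 b (sl j u)) * ψ (rw2 b (sl j u))) (fun _ => 0)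
  have hg : Measurable g := hcg.measurable_piecewise continuousOn_const hVo.measurableSet
  have hn0 : dg K ≠ 0 := by omega
  refine null_of_levels _ g hg (fun t => t ^ dg K * c) ?_ (fun t => Tj j t 0)
    (fun t ht S hS => Tj_null j t 0 ht.ne' S hS) ?_
  · intro t ht t' ht' h
    have h3 : t ^ dg K = t' ^ dg K := mul_right_cancel₀ hc.ne' h
    exact (pow_left_inj₀ (le_of_lt ht) (le_of_lt ht') hn0).1 h3
  · rintro t ht u ⟨hu, hc'⟩
    have ht' : 0 < t := ht
    have h1 : pm (rw2 b (sl j (Tj j t 0 u))) = t ^ dg K * pm (rw2 b (sl j u)) :=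
      pm_Tj b j t 0 ht' u
    have h2 : Tj j t 0 u ∈ V := by
      show 0 < pm (rw2 b (sl j (Tj j t 0 u)))
      rw [h1]
      positivity
    have h3 : ψ (rw2 b (sl j (Tj j t 0 u))) = ψ (rw2 b (sl j u)) := by
      rw [rw2_Tj]
      exact hgl (rw2 b (sl j u)) (SYM_rw2 b _) hu t 0 0 1 (by
        have : t * 1 - 0 * 0 = t := by ring
        rw [this]; exact ht'.ne')
    show g (Tj j t 0 u) = t ^ dg K * c
    rw [show g (Tj j t 0 u) = _ from Set.piecewise_eq_of_mem _ _ _ h2, h1, h3, mul_assoc, hc']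

end Pool.Agent.Y903.KE
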